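import Pool.Agent.helper74.VQ.SpecC
import Pool.Agent.helper11.VQ.Spec3b

set_option autoImplicit false

open scoped MatrixGroups ContDiff Topology UpperHalfPlane ComplexConjugate ENNReal
open UpperHalfPlane MeasureTheory Filter Set

namespace Pool.Agent.VQ

open Pool.Agent.RS
open Pool.Agent.RPQ (IsOp)

theorem VI2_norm {Y : Type} [MeasurableSpace Y] (μ : Measure Y) (v : Lp ℂ 2 μ) : ‖v‖ ^ 2 = ∫ x, ‖v x‖ ^ 2 ∂μ := by
  have h : inner ℂ v v = ∫ a, inner ℂ (v a) (v a) ∂μ := L2.inner_def v v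
  have e : ∀ a, inner ℂ (v a) (v a) = ((‖v a‖ ^ 2 : ℝ) : ℂ) := fun a => by
    rw [inner_self_eq_norm_sq_to_K]
    push_cast
    rfl
  simp only [e] at h
  rw [integral_complex_ofReal, inner_self_eq_norm_sq_to_K] at h
  refine Complex.ofReal_injective ?_
  rw [← h]
  push_cast
  rfl

/-- the extension of a bounded measurable function on the fundamental domain to an invariant function -/
theorem VI2_ext {Γ : Subgroup SL(2, ℝ)} {F : Set ℍ} (R : ℝ) (hF : QU.NiceDom Γ F)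
    (hPS : PS Γ (SL(2, ℝ) × ℝ) (mW R) (DW F) dW) (u : SL(2, ℝ) × ℝ → ℂ) (hu : Measurable u) (hb : ∃ b : ℝ, ∀ p, ‖u p‖ ≤ b) :
    ∃ w : SL(2, ℝ) × ℝ → ℂ, FP Γ F w ∧ (∀ p, p.2 ∉ Wi 2 R → w p = 0) ∧ (∀ p ∈ PW F 2 R, w p = u p) ∧
      ∀ (γ : Γ) (p : SL(2, ℝ) × ℝ), w (γ • p) = w p := by
  classical
  have hex := fun y => hPS.uniq y
  choose c hc using hex
  have hcm : Measurable (fun p : SL(2, ℝ) × ℝ => c p • p) := by
    intro s hs
    have hcnt : Countable Γ := hPS.cnt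
    have e : (fun p : SL(2, ℝ) × ℝ => c p • p) ⁻¹' s = ⋃ γ : Γ, ({p | γ • p ∈ DW F} ∩ {p | γ • p ∈ s}) := by
      ext p
      rw [mem_iUnion]
      constructor
      · intro hp
        exact ⟨c p, (hc p).1, hp⟩
      · rintro ⟨γ, h1, h2⟩
        have h3 : γ = c p := (hc p).2 γ h1
        rw [h3] at h2
        exact h2
    rw [e]
    refine MeasurableSet.iUnion fun γ => ?_
    have hm : Measurable (fun y : SL(2, ℝ) × ℝ => γ • y) := (hPS.act γ).measurable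
    exact (hm hPS.meas).inter (hm hs)
  obtain ⟨b, hb⟩ := hb
  have hb0 : 0 ≤ b := (norm_nonneg _).trans (hb (1, 0))
  obtain ⟨w, hw⟩ : ∃ w : SL(2, ℝ) × ℝ → ℂ, w = fun p => if p.2 ∈ Wi 2 R then u (c p • p) else 0 := ⟨_, rfl⟩
  have hWm : MeasurableSet (Wi 2 R) := measurableSet_Icc
  have hinv : ∀ (γ : Γ) (p : SL(2, ℝ) × ℝ), w (γ • p) = w p := by
    intro γ p
    have h1 : (c (γ • p) * γ) • p ∈ DW F := by
      rw [mul_smul]
      exact (hc (γ • p)).1
    have h2 : c (γ • p) * γ = c p := (hc p).2 _ h1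
    have h3 : c (γ • p) • γ • p = c p • p := by rw [← mul_smul, h2]
    have h4 : (γ • p).2 = p.2 := rfl
    rw [hw]
    show (if (γ • p).2 ∈ Wi 2 R then u (c (γ • p) • γ • p) else 0) = _
    rw [h3, h4]
  refine ⟨w, ⟨?_, ⟨b, ?_⟩, fun γ p => hinv γ p, ?_⟩, ?_, ?_, hinv⟩
  · rw [hw]
    exact Measurable.ite (measurable_snd hWm) (hu.comp hcm) measurable_const
  · intro p
    rw [hw]
    show ‖(if p.2 ∈ Wi 2 R then u (c p • p) else 0)‖ ≤ b
    split_ifs
    · exact hb _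
    · rw [norm_zero]
      exact hb0
  · obtain ⟨K, hK, hFK⟩ := hF.rel
    obtain ⟨b', hb'⟩ := hK.isBounded.subset_closedBall I
    refine ⟨b', fun p hp _ => ?_⟩
    exact Metric.mem_closedBall.1 (hb' (hFK hp))
  · intro p hp
    rw [hw]
    exact if_neg hp
  · intro p hp
    have h1 : (1 : Γ) • p ∈ DW F := by
      rw [one_smul]
      exact ⟨hp.1, mem_univ _⟩
    have h2 : (1 : Γ) = c p := (hc p).2 _ h1
    rw [hw]
    show (if p.2 ∈ Wi 2 R then u (c p • p) else 0) = u p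
    rw [if_pos hp.2, ← h2, one_smul]

theorem VI2_meas (hGMG : GMG_stmt) (R : ℝ) {F : Set ℍ} (hD : MeasurableSet (DW F)) :
    mW R = mP.restrict (univ ×ˢ Wi 2 R) ∧ (mW R).restrict (DW F) = mP.restrict (PW F 2 R) := by
  have hsf : SigmaFinite mG := hGMG.2.2.1
  have h1 : mW R = mP.restrict (univ ×ˢ Wi 2 R) := by
    unfold mW mP
    rw [← Measure.prod_restrict, Measure.restrict_univ]
  refine ⟨h1, ?_⟩
  rw [h1, Measure.restrict_restrict hD]
  congr 1
  unfold DW PW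
  rw [Set.prod_inter_prod, inter_univ, univ_inter]

theorem VI2_proof (hVTN : VTN_stmt) (hKPZ : KPZ_stmt) (hPSC : PSC_stmt) (hGMG : GMG_stmt) : VI2_stmt := by
  intro Γ ch hΓ hch
  obtain ⟨C, hC, hV⟩ := hVTN
  refine ⟨1 / 10, C, by norm_num, hC, ?_⟩
  intro B A hA
  obtain ⟨R0, hR0, hV⟩ := hV ch B A hch hA
  refine ⟨1 / 6, R0, by norm_num, hR0, ?_⟩
  intro R D F f hR hD hF hf T hT
  have hPS := hPSC Γ F R hΓ hF
  obtain ⟨hm1, hm2⟩ := VI2_meas hGMG R hPS.meas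
  obtain ⟨-, hV⟩ := hV R (1 / 10) Γ F D hR (Or.inl ⟨hΓ, hF⟩) hD le_rfl
  obtain ⟨-, -, hKZ, hV⟩ := hV f (A.tu R) hf.inv
  have hR1 : 0 < R := by linarith
  have hc0 : 0 ≤ 1 + R ^ (-(1 / 6) : ℝ) := by positivity
  refine ContinuousLinearMap.opNorm_le_bound T hc0 ?_
  intro v0
  refine DenseRange.induction_on (Lp.simpleFunc.denseRange (p := 2) (μ := (mW R).restrict (DW F)) (E := ℂ) (by norm_num)) v0
    (p := fun v => ‖T v‖ ≤ (1 + R ^ (-(1 / 6) : ℝ)) * ‖v‖)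
    (isClosed_le T.continuous.norm (continuous_const.mul continuous_norm)) ?_
  intro a
  obtain ⟨u, hu⟩ : ∃ u : SimpleFunc (SL(2, ℝ) × ℝ) ℂ, u = Lp.simpleFunc.toSimpleFunc a := ⟨_, rfl⟩
  have hua : (u : SL(2, ℝ) × ℝ → ℂ) =ᵐ[(mW R).restrict (DW F)] (a : Lp ℂ 2 ((mW R).restrict (DW F))) := by
    rw [hu]
    exact Lp.simpleFunc.toSimpleFunc_eq_toFun a
  obtain ⟨w, hw1, hw2, hw3, hw4⟩ := VI2_ext R hF hPS u u.measurable u.exists_forall_norm_le
  obtain ⟨v, hv⟩ : ∃ v : Lp ℂ 2 ((mW R).restrict (DW F)), v = a := ⟨_, rfl⟩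
  rw [← hv] at hua
  show ‖T a‖ ≤ (1 + R ^ (-(1 / 6) : ℝ)) * ‖(a : Lp ℂ 2 ((mW R).restrict (DW F)))‖
  rw [← hv]
  have hPWm : MeasurableSet (PW F 2 R) := by
    have h1 : MeasurableSet (dG F) := by
      have h2 : dG F = (fun g : SL(2, ℝ) => (g, (0 : ℝ))) ⁻¹' (DW F) := by
        ext g
        constructor
        · intro hg
          exact ⟨hg, mem_univ _⟩
        · intro hg
          exact hg.1
      rw [h2]
      exact (measurable_id.prodMk measurable_const) hPS.meas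
    exact h1.prod measurableSet_Icc
  have hvw : (v : SL(2, ℝ) × ℝ → ℂ) =ᵐ[(mW R).restrict (DW F)] w := by
    have h1 : ∀ᵐ p ∂((mW R).restrict (DW F)), p ∈ PW F 2 R := by
      rw [hm2]
      exact ae_restrict_mem hPWm
    filter_upwards [hua, h1] with p hp1 hp2
    rw [← hp1, hw3 p hp2]
  have hTv : (T v : SL(2, ℝ) × ℝ → ℂ) =ᵐ[(mW R).restrict (DW F)] Op (KB D ch A R f) w := by
    refine (hT v).trans (Filter.Eventually.of_forall fun y => ?_)
    show ∫ z, perZ Γ (KB D ch A R f) y z * v z ∂((mW R).restrict (DW F)) = Op (KB D ch A R f) w y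
    have e1 : ∫ z, perZ Γ (KB D ch A R f) y z * v z ∂((mW R).restrict (DW F)) =
        ∫ z, perZ Γ (KB D ch A R f) y z * w z ∂((mW R).restrict (DW F)) := by
      refine integral_congr_ae ?_
      filter_upwards [hvw] with p hp
      rw [hp]
    rw [e1, ((hKPZ Γ (SL(2, ℝ) × ℝ) (mW R) (DW F) dW hPS).1 _ hKZ).2.2.2 w hw1.meas hw1.bdd hw4 y, hm1]
    unfold Op
    refine setIntegral_eq_integral_of_forall_compl_eq_zero ?_
    intro q hq
    have : q.2 ∉ Wi 2 R := fun h => hq ⟨mem_univ _, h⟩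
    rw [hw2 q this, mul_zero]
  have hn1 : ‖T v‖ ^ 2 = nP F 2 R (Op (KB D ch A R f) w) := by
    rw [VI2_norm]
    unfold nP
    rw [← hm2]
    refine integral_congr_ae ?_
    filter_upwards [hTv] with p hp
    rw [hp]
  have hn2 : ‖v‖ ^ 2 = nP F 2 R w := by
    rw [VI2_norm]
    unfold nP
    rw [← hm2]
    refine integral_congr_ae ?_
    filter_upwards [hvw] with p hp
    rw [hp]
  have h3 := hV w hw1
  rw [← hn1, ← hn2, ← mul_pow] at h3
  exact (pow_le_pow_iff_left₀ (norm_nonneg _) (mul_nonneg hc0 (norm_nonneg _)) two_ne_zero).1 h3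

end Pool.Agent.VQ
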