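import Pool.Agent.helper11.VQ.Spec3b

set_option autoImplicit false

open scoped MatrixGroups ContDiff Topology UpperHalfPlane ComplexConjugate ENNReal
open UpperHalfPlane MeasureTheory Filter Set

namespace Pool.Agent.VQ

open Pool.Agent.RS
open Pool.Agent.RPQ (CEig mean VV IsOp IsMul OProj wrd PJ nst mks MO Net Cl)

/-! ### counting chains -/

open scoped Classical in
theorem CNTV_chain {α β : Type} (q n S : ℕ) (hS : 1 ≤ S) (F0 : Finset α) (F : α → Finset α) (G : α → Finset β)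
    (h0 : F0.card ≤ q) (h1 : ∀ a, (F a).card ≤ q) (h2 : ∀ a, (G a).card ≤ n) (B : Set β)
    (hB : ∀ c ∈ B, ∃ P : ℕ → α → Prop, (∀ a, P 0 a → a ∈ F0) ∧ (∀ (i : ℕ) (a a' : α), i + 1 < S → P i a → P (i + 1) a' → a' ∈ F a) ∧
      (∀ i < S, ∃ a, P i a) ∧ ∀ a, P (S - 1) a → c ∈ G a) :
    B.Finite ∧ B.ncard ≤ q ^ S * n := by
  obtain ⟨A, hA0, hA1⟩ : ∃ A : ℕ → Finset α, A 0 = F0 ∧ ∀ i, A (i + 1) = (A i).biUnion F :=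
    ⟨fun i => Nat.rec F0 (fun _ X => X.biUnion F) i, rfl, fun _ => rfl⟩
  have hcard : ∀ i, (A i).card ≤ q ^ (i + 1) := by
    intro i
    induction i with
    | zero => rw [hA0, zero_add, pow_one]; exact h0
    | succ i ih =>
      rw [hA1]
      calc ((A i).biUnion F).card ≤ (A i).card * q := Finset.card_biUnion_le_card_mul _ _ _ fun a _ => h1 a
        _ ≤ q ^ (i + 1) * q := Nat.mul_le_mul_right _ ih
        _ = q ^ (i + 1 + 1) := (pow_succ _ _).symm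
  have hsub : B ⊆ (((A (S - 1)).biUnion G : Finset β) : Set β) := by
    intro c hc
    obtain ⟨P, p0, p1, p2, p3⟩ := hB c hc
    have hin : ∀ i, i < S → ∀ a, P i a → a ∈ A i := by
      intro i
      induction i with
      | zero => intro _ a ha; rw [hA0]; exact p0 a ha
      | succ i ih =>
        intro hi a' ha'
        obtain ⟨a, ha⟩ := p2 i (by omega)
        rw [hA1, Finset.mem_biUnion]
        exact ⟨a, ih (by omega) a ha, p1 i a a' hi ha ha'⟩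
    obtain ⟨a, ha⟩ := p2 (S - 1) (by omega)
    rw [Finset.mem_coe, Finset.mem_biUnion]
    exact ⟨a, hin (S - 1) (by omega) a ha, p3 a ha⟩
  refine ⟨Set.Finite.subset (Finset.finite_toSet _) hsub, ?_⟩
  calc B.ncard ≤ (((A (S - 1)).biUnion G : Finset β) : Set β).ncard := Set.ncard_le_ncard hsub (Finset.finite_toSet _)
    _ = ((A (S - 1)).biUnion G).card := Set.ncard_coe_finset _
    _ ≤ (A (S - 1)).card * n := Finset.card_biUnion_le_card_mul _ _ _ fun a _ => h2 a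
    _ ≤ q ^ (S - 1 + 1) * n := Nat.mul_le_mul_right _ (hcard _)
    _ = q ^ S * n := by rw [Nat.sub_add_cancel hS]

open scoped Classical in
/-- the finite set of the next states -/
theorem CNTV_next {Γ : Subgroup SL(2, ℝ)} (n : ℕ) (hn : ∀ z w : ℍ, {γ : Γ | dist z ((γ : SL(2, ℝ)) • w) ≤ 12}.Finite ∧ {γ : Γ | dist z ((γ : SL(2, ℝ)) • w) ≤ 12}.ncard ≤ n)
    (L : ℕ) (z : ℍ) (w : ℕ → ℍ) : ∃ X : Finset (Γ × ℕ × ℕ), X.card ≤ (L + 1) * (4 * n) ∧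
      ∀ (γ : Γ) (k m : ℕ), k ≤ L → m < 4 → dist z ((γ : SL(2, ℝ)) • w k) ≤ 12 → (γ, k, m) ∈ X := by
  refine ⟨(Finset.range (L + 1)).biUnion fun k => (Finset.range 4).biUnion fun m => (hn z (w k)).1.toFinset.image fun γ => (γ, k, m), ?_, ?_⟩
  · have h1 : ∀ k : ℕ, ((Finset.range 4).biUnion fun m => (hn z (w k)).1.toFinset.image fun γ : Γ => (γ, k, m)).card ≤ 4 * n := by
      intro k
      refine (Finset.card_biUnion_le_card_mul _ _ n fun m _ => ?_).trans (by rw [Finset.card_range])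
      refine Finset.card_image_le.trans ?_
      rw [← Set.ncard_eq_toFinset_card _ (hn z (w k)).1]
      exact (hn z (w k)).2
    refine (Finset.card_biUnion_le_card_mul _ _ (4 * n) fun k _ => h1 k).trans (by rw [Finset.card_range])
  · intro γ k m hk hm hd
    rw [Finset.mem_biUnion]
    refine ⟨k, Finset.mem_range.2 (by omega), ?_⟩
    rw [Finset.mem_biUnion]
    refine ⟨m, Finset.mem_range.2 hm, ?_⟩
    rw [Finset.mem_image]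
    exact ⟨γ, (Set.Finite.mem_toFinset _).2 hd, rfl⟩

/-! ### geometry -/

theorem CNTV_mono {Γ : Subgroup SL(2, ℝ)} {δ δ' : ℝ} {B : ℕ → ℝ} {D : Dyn} (h : δ ≤ δ') (hD : OKD Γ δ B D) : OKD Γ δ' B D :=
  { hD with pot := { hD.pot with near := fun g v hv n hn => (hD.pot.near g v hv n hn).trans h } }

/-- one transition -/
theorem CNTV_B {Γ : Subgroup SL(2, ℝ)} (D : Dyn) (C C2 ρ1 t : ℝ) (N : ℕ) (w w' : ℕ → SL(2, ℝ) × ℝ)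
    (hinv : ∀ (γ : Γ) (s : ℝ) (g : SL(2, ℝ)), D.fl 0 s ((γ : SL(2, ℝ)) * g) = (γ : SL(2, ℝ)) * D.fl 0 s g)
    (hf0 : ∀ g, D.fl 0 0 g = g) (hk0 : kM 0 = 1)
    (h1 : ∀ (x y : SL(2, ℝ)) (s : ℝ) (i : ℕ), Real.exp (C * |s|) ≤ ρ1 ^ (-(1 / 2) : ℝ) → EN.nr (C2 * ρ1) (x⁻¹ * y * kM (i * (Real.pi / 2))) →
      dist (D.fl 0 s x • I : ℍ) (D.fl 0 s (y * kM (i * (Real.pi / 2))) • I) ≤ 1)
    (h2 : ∀ (y : SL(2, ℝ)) (s v : ℝ) (i : ℕ), 0 ≤ v → v ≤ 1 →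
      dist (D.fl 0 s (D.fl 0 v y * kM (i * (Real.pi / 2))) • I : ℍ) (D.fl 0 s (y * kM (i * (Real.pi / 2))) • I) ≤ 3)
    (h3 : ∀ (s v x : ℝ) (i : ℕ), 0 ≤ s → 0 ≤ v → v ≤ t → s + v ≤ N * t → Real.exp (C * v) ≤ ρ1 ^ (-(1 / 2) : ℝ) → Real.exp (C * |x|) ≤ ρ1 ^ (-(1 / 2) : ℝ) →
      v = 0 ∨ x = 0 ∨ v ≤ 1 → dist (D.fl 0 x (frZ D t w (s + v) * kM (i * (Real.pi / 2))) • I : ℍ) (D.fl 0 x (D.fl 0 v (frZ D t w s) * kM (i * (Real.pi / 2))) • I) ≤ 1)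
    (h3' : ∀ (s v x : ℝ) (i : ℕ), 0 ≤ s → 0 ≤ v → v ≤ t → s + v ≤ N * t → Real.exp (C * v) ≤ ρ1 ^ (-(1 / 2) : ℝ) → Real.exp (C * |x|) ≤ ρ1 ^ (-(1 / 2) : ℝ) →
      v = 0 ∨ x = 0 ∨ v ≤ 1 → dist (D.fl 0 x (frZ D t w' (s + v) * kM (i * (Real.pi / 2))) • I : ℍ) (D.fl 0 x (D.fl 0 v (frZ D t w' s) * kM (i * (Real.pi / 2))) • I) ≤ 1)
    (hC0 : 0 ≤ C) (hC1 : Real.exp C ≤ ρ1 ^ (-(1 / 2) : ℝ)) (ht : 1 ≤ t)
    (s' v s : ℝ) (γ : Γ) (m : ℕ) (hs' : 0 ≤ s') (hv : 0 ≤ v) (hvt : v ≤ t) (hsv : s' + v ≤ N * t) (hv1 : Real.exp (C * v) ≤ ρ1 ^ (-(1 / 2) : ℝ))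
    (hs : 0 ≤ s) (hsN : s ≤ N * t)
    (hnr : EN.nr (C2 * ρ1) ((frZ D t w' s')⁻¹ * ((γ : SL(2, ℝ)) * frZ D t w s) * kM (m * (Real.pi / 2)))) :
    dist (frZ D t w' (s' + v) • I : ℍ) (D.fl 0 v ((γ : SL(2, ℝ)) * frZ D t w (⌊s⌋₊ : ℝ) * kM (m * (Real.pi / 2))) • I) ≤ 6 := by
  have hf1 : (0 : ℝ) ≤ (⌊s⌋₊ : ℝ) := Nat.cast_nonneg _
  have hf2 : (⌊s⌋₊ : ℝ) ≤ s := Nat.floor_le hs
  have hf3 : s < (⌊s⌋₊ : ℝ) + 1 := Nat.lt_floor_add_one s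
  have hexp0 : Real.exp (C * |(0 : ℝ)|) ≤ ρ1 ^ (-(1 / 2) : ℝ) := by
    rw [abs_zero, mul_zero]
    exact (Real.exp_le_exp.2 hC0).trans hC1
  have hva : Real.exp (C * |v|) ≤ ρ1 ^ (-(1 / 2) : ℝ) := by rw [abs_of_nonneg hv]; exact hv1
  have d1 := h3' s' v 0 0 hs' hv hvt hsv hv1 hexp0 (Or.inr (Or.inl rfl))
  rw [Nat.cast_zero, zero_mul, hk0, mul_one, mul_one, hf0, hf0] at d1
  have d2 := h1 (frZ D t w' s') ((γ : SL(2, ℝ)) * frZ D t w s) v m hva hnr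
  have hu : Real.exp (C * (s - (⌊s⌋₊ : ℝ))) ≤ ρ1 ^ (-(1 / 2) : ℝ) := by
    refine (Real.exp_le_exp.2 ?_).trans hC1
    have : C * (s - (⌊s⌋₊ : ℝ)) ≤ C * 1 := mul_le_mul_of_nonneg_left (by linarith) hC0
    linarith
  have d3 := h3 (⌊s⌋₊ : ℝ) (s - (⌊s⌋₊ : ℝ)) v m hf1 (by linarith) (by linarith) (by linarith) hu hva (Or.inr (Or.inr (by linarith)))
  rw [add_sub_cancel] at d3
  have d4 := h2 (frZ D t w (⌊s⌋₊ : ℝ)) v (s - (⌊s⌋₊ : ℝ)) m (by linarith) (by linarith)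
  have d34 : dist (D.fl 0 v ((γ : SL(2, ℝ)) * frZ D t w s * kM (m * (Real.pi / 2))) • I : ℍ)
      (D.fl 0 v ((γ : SL(2, ℝ)) * frZ D t w (⌊s⌋₊ : ℝ) * kM (m * (Real.pi / 2))) • I) ≤ 4 := by
    rw [mul_assoc, hinv, mul_assoc, hinv, mul_smul, mul_smul, dist_smul]
    exact (dist_triangle _ _ _).trans (by linarith)
  calc dist (frZ D t w' (s' + v) • I : ℍ) (D.fl 0 v ((γ : SL(2, ℝ)) * frZ D t w (⌊s⌋₊ : ℝ) * kM (m * (Real.pi / 2))) • I)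
      ≤ dist (frZ D t w' (s' + v) • I : ℍ) (D.fl 0 v (frZ D t w' s') • I) +
        dist (D.fl 0 v (frZ D t w' s') • I : ℍ) (D.fl 0 v ((γ : SL(2, ℝ)) * frZ D t w s * kM (m * (Real.pi / 2))) • I) +
        dist (D.fl 0 v ((γ : SL(2, ℝ)) * frZ D t w s * kM (m * (Real.pi / 2))) • I : ℍ)
          (D.fl 0 v ((γ : SL(2, ℝ)) * frZ D t w (⌊s⌋₊ : ℝ) * kM (m * (Real.pi / 2))) • I) :=
        dist_triangle4 _ _ _ _
    _ ≤ 6 := by linarith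

theorem CNTV_fr0 (D : Dyn) (t : ℝ) (w : ℕ → SL(2, ℝ) × ℝ) (hf0 : ∀ E g, D.fl E 0 g = g) : frZ D t w 0 = (w 0).1 := by
  unfold frZ
  rw [zero_div, Nat.floor_zero, Nat.cast_zero, zero_mul, sub_zero, hf0]

theorem CNTV_frN (D : Dyn) (t : ℝ) (w : ℕ → SL(2, ℝ) × ℝ) (N : ℕ) (ht : t ≠ 0) (hf0 : ∀ E g, D.fl E 0 g = g) :
    frZ D t w (N * t) = (w N).1 := by
  unfold frZ
  rw [mul_div_cancel_right₀ _ ht, Nat.floor_natCast, sub_self, hf0]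

theorem CNTV_main (hGLC : GLC_stmt) {Γ : Subgroup SL(2, ℝ)} (D : Dyn) (CC C2 ρ1 t : ℝ) (N n : ℕ) (x y : SL(2, ℝ) × ℝ)
    (w : ℕ → SL(2, ℝ) × ℝ)
    (hinv : ∀ (γ : Γ) (s : ℝ) (g : SL(2, ℝ)), D.fl 0 s ((γ : SL(2, ℝ)) * g) = (γ : SL(2, ℝ)) * D.fl 0 s g)
    (hf0 : ∀ E g, D.fl E 0 g = g)
    (h1 : ∀ (x y : SL(2, ℝ)) (s : ℝ) (i : ℕ), Real.exp (CC * |s|) ≤ ρ1 ^ (-(1 / 2) : ℝ) → EN.nr (C2 * ρ1) (x⁻¹ * y * kM (i * (Real.pi / 2))) →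
      dist (D.fl 0 s x • I : ℍ) (D.fl 0 s (y * kM (i * (Real.pi / 2))) • I) ≤ 1)
    (h2 : ∀ (y : SL(2, ℝ)) (s v : ℝ) (i : ℕ), 0 ≤ v → v ≤ 1 →
      dist (D.fl 0 s (D.fl 0 v y * kM (i * (Real.pi / 2))) • I : ℍ) (D.fl 0 s (y * kM (i * (Real.pi / 2))) • I) ≤ 3)
    (h3 : ∀ (s v x : ℝ) (i : ℕ), 0 ≤ s → 0 ≤ v → v ≤ t → s + v ≤ N * t → Real.exp (CC * v) ≤ ρ1 ^ (-(1 / 2) : ℝ) → Real.exp (CC * |x|) ≤ ρ1 ^ (-(1 / 2) : ℝ) →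
      v = 0 ∨ x = 0 ∨ v ≤ 1 → dist (D.fl 0 x (frZ D t w (s + v) * kM (i * (Real.pi / 2))) • I : ℍ) (D.fl 0 x (D.fl 0 v (frZ D t w s) * kM (i * (Real.pi / 2))) • I) ≤ 1)
    (hC0 : 0 < CC) (hC1 : Real.exp CC ≤ ρ1 ^ (-(1 / 2) : ℝ)) (ht : 1 ≤ t) (hN : 1 ≤ N)
    (hρ0 : 0 < ρ1) (hlog0 : 0 < Real.log (1 / ρ1)) (hlogt : Real.log (1 / ρ1) / (2 * CC) ≤ t)
    (hn : ∀ z w : ℍ, {γ : Γ | dist z ((γ : SL(2, ℝ)) • w) ≤ 12}.Finite ∧ {γ : Γ | dist z ((γ : SL(2, ℝ)) • w) ≤ 12}.ncard ≤ n)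
    (Sg : Set Γ)
    (hSg : ∀ c ∈ Sg, ∃ w' : ℕ → SL(2, ℝ) × ℝ, w' 0 = x ∧ w' N = c • y ∧
      (∀ (s v x : ℝ) (i : ℕ), 0 ≤ s → 0 ≤ v → v ≤ t → s + v ≤ N * t → Real.exp (CC * v) ≤ ρ1 ^ (-(1 / 2) : ℝ) → Real.exp (CC * |x|) ≤ ρ1 ^ (-(1 / 2) : ℝ) →
        v = 0 ∨ x = 0 ∨ v ≤ 1 → dist (D.fl 0 x (frZ D t w' (s + v) * kM (i * (Real.pi / 2))) • I : ℍ) (D.fl 0 x (D.fl 0 v (frZ D t w' s) * kM (i * (Real.pi / 2))) • I) ≤ 1) ∧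
      ∀ s' : ℝ, 0 ≤ s' → s' < N * t → ∃ (s : ℝ) (γ : Γ), 0 ≤ s ∧ s < N * t ∧ Cl (C2 * ρ1) (frZ D t w' s') ((γ : SL(2, ℝ)) * frZ D t w s)) :
    Sg.Finite ∧ Sg.ncard ≤ ((⌊N * t⌋₊ + 1) * (4 * n)) ^ ⌈N * t / (Real.log (1 / ρ1) / (2 * CC))⌉₊ * n := by
  have hkI : ∀ (g : SL(2, ℝ)) (θ : ℝ), ((g * kM θ) • I : ℍ) = g • I := by
    intro g θ
    rw [mul_smul]
    obtain ⟨_, _, _, _, _, _, _, _, _, _, _, _, _, _, _, hkI, _⟩ := hGLC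
    rw [hkI]
  have hk0 : kM 0 = 1 := by
    obtain ⟨_, _, _, _, _, _, _, _, _, _, haa, _, _, hkk, _⟩ := hGLC
    have h := hkk 0 0
    rw [add_zero] at h
    exact (mul_eq_left.1 h.symm)
  have hNr : (1 : ℝ) ≤ N := by exact_mod_cast hN
  obtain ⟨Λ, hΛ⟩ : ∃ Λ : ℝ, Λ = Real.log (1 / ρ1) / (2 * CC) := ⟨_, rfl⟩
  rw [← hΛ]
  rw [← hΛ] at hlogt
  have hΛ0 : 0 < Λ := by rw [hΛ]; positivity
  have hexpΛ : Real.exp (CC * Λ) ≤ ρ1 ^ (-(1 / 2) : ℝ) := by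
    rw [Real.rpow_def_of_pos hρ0]
    refine Real.exp_le_exp.2 (le_of_eq ?_)
    rw [hΛ, one_div, Real.log_inv]
    field_simp
  obtain ⟨T, hTd⟩ : ∃ T : ℝ, T = N * t := ⟨_, rfl⟩
  have hT : 1 ≤ T := by rw [hTd]; nlinarith
  have hTΛ : 0 < T / Λ := by positivity
  obtain ⟨S, hSd⟩ : ∃ S : ℕ, S = ⌈T / Λ⌉₊ := ⟨_, rfl⟩
  rw [← hTd, ← hSd]
  have hS1 : 1 ≤ S := by rw [hSd]; exact Nat.ceil_pos.2 hTΛ
  have hSlt : ∀ i : ℕ, i < S → (i : ℝ) * Λ < T := by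
    intro i hi
    rw [hSd, Nat.lt_ceil, lt_div_iff₀ hΛ0] at hi
    exact hi
  have hSle : T ≤ S * Λ := by
    rw [← div_le_iff₀ hΛ0, hSd]
    exact Nat.le_ceil _
  obtain ⟨W, hW⟩ : ∃ W : ℕ → ℍ, W = fun k : ℕ => frZ D t w (k : ℝ) • I := ⟨_, rfl⟩
  have hnext := fun z : ℍ => CNTV_next (Γ := Γ) n hn ⌊T⌋₊ z W
  choose X hX1 hX2 using hnext
  obtain ⟨zz, hzz⟩ : ∃ zz : ℝ → Γ × ℕ × ℕ → ℍ, zz = fun v a =>
    ((D.fl 0 v ((a.1 : SL(2, ℝ)) * frZ D t w (a.2.1 : ℝ) * kM (a.2.2 * (Real.pi / 2)))) • I : ℍ) := ⟨_, rfl⟩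
  obtain ⟨vE, hvE⟩ : ∃ vE : ℝ, vE = T - ((S - 1 : ℕ) : ℝ) * Λ := ⟨_, rfl⟩
  refine CNTV_chain ((⌊T⌋₊ + 1) * (4 * n)) n S hS1 (X (x.1 • I)) (fun a => X (zz Λ a)) (fun a => (hn (zz vE a) (y.1 • I)).1.toFinset)
    (hX1 _) (fun a => hX1 _) (fun a => by
      rw [← Set.ncard_eq_toFinset_card _ (hn (zz vE a) (y.1 • I)).1]
      exact (hn _ _).2) Sg ?_
  intro c hc
  obtain ⟨w', hw0, hwN, h3', hP⟩ := hSg c hc
  have hB := fun (s' v s : ℝ) (γ : Γ) (m : ℕ) => CNTV_B D CC C2 ρ1 t N w w' hinv (hf0 0) hk0 h1 h2 h3 h3' hC0.le hC1 ht s' v s γ m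
  have hexp00 : Real.exp (CC * 0) ≤ ρ1 ^ (-(1 / 2) : ℝ) := by
    rw [mul_zero]
    exact (Real.exp_le_exp.2 hC0.le).trans hC1
  have hpos : ∀ (s' s : ℝ) (γ : Γ) (m : ℕ), 0 ≤ s' → s' < T → 0 ≤ s → s < T →
      EN.nr (C2 * ρ1) ((frZ D t w' s')⁻¹ * ((γ : SL(2, ℝ)) * frZ D t w s) * kM (m * (Real.pi / 2))) →
      dist (frZ D t w' s' • I : ℍ) ((γ : SL(2, ℝ)) • W ⌊s⌋₊) ≤ 6 := by
    intro s' s γ m g1 g2 g3 g4 g5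
    have h6 := hB s' 0 s γ m g1 le_rfl (by linarith) (by rw [add_zero, ← hTd]; exact g2.le) hexp00 g3 (by rw [← hTd]; exact g4.le) g5
    rw [add_zero, hf0, hkI, mul_smul] at h6
    rw [hW]
    exact h6
  refine ⟨fun i a => ∃ s : ℝ, 0 ≤ s ∧ s < T ∧ a.2.1 = ⌊s⌋₊ ∧ a.2.2 < 4 ∧
    EN.nr (C2 * ρ1) ((frZ D t w' (i * Λ))⁻¹ * ((a.1 : SL(2, ℝ)) * frZ D t w s) * kM (a.2.2 * (Real.pi / 2))), ?_, ?_, ?_, ?_⟩
  · rintro ⟨γ, k, m⟩ ⟨s, hs0, hs1, hk, hm, hnr⟩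
    simp only at hk hm hnr
    rw [Nat.cast_zero, zero_mul] at hnr
    have h6 := hpos 0 s γ m le_rfl (by linarith) hs0 hs1 hnr
    rw [CNTV_fr0 D t w' hf0, hw0] at h6
    rw [hk]
    exact hX2 _ γ _ m (Nat.floor_le_floor hs1.le) hm (h6.trans (by norm_num))
  · rintro i ⟨γ, k, m⟩ ⟨γ₁, k₁, m₁⟩ hi ⟨s, hs0, hs1, hk, hm, hnr⟩ ⟨s₁, hs0₁, hs1₁, hk₁, hm₁, hnr₁⟩
    simp only at hk hm hnr hk₁ hm₁ hnr₁
    have e : ((i + 1 : ℕ) : ℝ) * Λ = i * Λ + Λ := by push_cast; ring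
    have hlt := hSlt (i + 1) hi
    have h6 := hB (i * Λ) Λ s γ m (by positivity) hΛ0.le hlogt (by rw [← e, ← hTd]; exact hlt.le) hexpΛ hs0 (by rw [← hTd]; exact hs1.le) hnr
    have h7 := hpos (((i + 1 : ℕ) : ℝ) * Λ) s₁ γ₁ m₁ (by positivity) hlt hs0₁ hs1₁ hnr₁
    rw [← e, ← hk] at h6
    rw [hk₁]
    refine hX2 _ γ₁ _ m₁ (Nat.floor_le_floor hs1₁.le) hm₁ ?_
    rw [dist_comm] at h6
    rw [hzz]
    exact (dist_triangle _ _ _).trans ((add_le_add h6 h7).trans (by norm_num))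
  · intro i hi
    obtain ⟨s, γ, hs0, hs1, m, hm, hnr⟩ := hP (i * Λ) (by positivity) (by rw [← hTd]; exact hSlt i hi)
    exact ⟨(γ, ⌊s⌋₊, m), s, hs0, by rw [hTd]; exact hs1, rfl, hm, hnr⟩
  · rintro ⟨γ, k, m⟩ ⟨s, hs0, hs1, hk, hm, hnr⟩
    simp only at hk hm hnr
    have hlt := hSlt (S - 1) (by omega)
    have hvE0 : 0 ≤ vE := by rw [hvE]; linarith
    have hvE1 : vE ≤ Λ := by
      have e : ((S - 1 : ℕ) : ℝ) = S - 1 := by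
        rw [Nat.cast_sub hS1, Nat.cast_one]
      rw [hvE, e]
      linarith
    have hexpE : Real.exp (CC * vE) ≤ ρ1 ^ (-(1 / 2) : ℝ) :=
      (Real.exp_le_exp.2 (mul_le_mul_of_nonneg_left hvE1 hC0.le)).trans hexpΛ
    have e2 : ((S - 1 : ℕ) : ℝ) * Λ + vE = N * t := by rw [hvE, ← hTd]; ring
    have h6 := hB (((S - 1 : ℕ) : ℝ) * Λ) vE s γ m (by positivity) hvE0 (hvE1.trans hlogt) e2.le hexpE hs0 (by rw [← hTd]; exact hs1.le) hnr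
    have e3 : ((c • y : SL(2, ℝ) × ℝ)).1 = (c : SL(2, ℝ)) * y.1 := rfl
    rw [e2, CNTV_frN D t w' N (by linarith) hf0, hwN, ← hk, e3, mul_smul (c : SL(2, ℝ)) y.1] at h6
    rw [Set.Finite.mem_toFinset, Set.mem_ofPred_eq, dist_comm, hzz]
    exact h6.trans (by norm_num)

theorem CNTV_proof (hPIV : PIV_stmt) (hCNV : CNV_stmt) (hFLB : FLB_stmt) (hINJ : RPQ.INJ_stmt) (hGLC : GLC_stmt) : CNTV_stmt := by
  intro Γ κ hΓ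
  obtain ⟨δP, CP, ρP, hδP, hCP, hρP0, hρP1, hPIV⟩ := hPIV Γ κ hΓ
  obtain ⟨δC, CC, hδC, hCC, hCNV⟩ := hCNV Γ hΓ
  obtain ⟨ρC, hρC0, hρC1, hCNV⟩ := hCNV CP hCP
  obtain ⟨δF, hδF, hFLB⟩ := hFLB Γ hΓ
  obtain ⟨_, hcount⟩ := hINJ Γ hΓ
  obtain ⟨n, hn⟩ := hcount 12
  have hn0 : (0 : ℝ) ≤ n := Nat.cast_nonneg n
  refine ⟨min δP (min δC δF), CP + 4 * n + 2 * CC, min (min ρP ρC) (Real.exp (-(2 * CC))), lt_min hδP (lt_min hδC hδF), by linarith,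
    lt_min (lt_min hρP0 hρC0) (Real.exp_pos _), ((min_le_left _ _).trans (min_le_right _ _)).trans hρC1, ?_⟩
  intro B C0 ρ ρ1 r K t J p χ N nc D x y w hD hN hρ hr hrρ hρ1 ht hlogt hK hnc hNet hw0 hw
  have hDP : OKD Γ δP B D := CNTV_mono (min_le_left _ _) hD
  have hDC : OKD Γ δC B D := CNTV_mono ((min_le_right _ _).trans (min_le_left _ _)) hD
  have hDF : OKD Γ δF B D := CNTV_mono ((min_le_right _ _).trans (min_le_right _ _)) hD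
  have hρ0 : 0 < ρ1 := hr.trans_le hrρ
  have hρP' : ρ1 ≤ ρP := hρ1.trans ((min_le_left _ _).trans (min_le_left _ _))
  have hρC' : ρ1 ≤ ρC := hρ1.trans ((min_le_left _ _).trans (min_le_right _ _))
  have hρe : ρ1 ≤ Real.exp (-(2 * CC)) := hρ1.trans (min_le_right _ _)
  have hρ8 : ρ1 ≤ 1 / 8 := hρC'.trans hρC1
  have hlρ : Real.log ρ1 ≤ -(2 * CC) := by
    rw [← Real.log_exp (-(2 * CC))]
    exact Real.log_le_log hρ0 hρe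
  have hlog1 : Real.log (1 / ρ1) = -Real.log ρ1 := by rw [one_div, Real.log_inv]
  have hlog0 : 0 < Real.log (1 / ρ1) := by rw [hlog1]; linarith
  have hNr : (1 : ℝ) ≤ N := by exact_mod_cast hN
  have hC1 : Real.exp CC ≤ ρ1 ^ (-(1 / 2) : ℝ) := by
    rw [Real.rpow_def_of_pos hρ0]
    exact Real.exp_le_exp.2 (by linarith)
  have hΛt : Real.log (1 / ρ1) / (2 * CC) ≤ t := by
    rw [div_le_iff₀ (by linarith : (0 : ℝ) < 2 * CC)]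
    nlinarith
  obtain ⟨hc1, hc2, hc3⟩ := hCNV B D ρ1 hDC hρ0 hρC'
  obtain ⟨_, hF2, _⟩ := hFLB B D hDF 0 (by norm_num)
  obtain ⟨T, hTd⟩ : ∃ T : ℝ, T = N * t := ⟨_, rfl⟩
  have hT : 1 ≤ T := by rw [hTd]; nlinarith
  have hmain := CNTV_main hGLC (Γ := Γ) D CC CP ρ1 t N n x y w hF2 hD.fl0 hc1 hc2 (hc3 t r N w ht hr hrρ hw) (by linarith) hC1 ht hN hρ0
    hlog0 hΛt hn {γ : Γ | ∃ w' : ℕ → SL(2, ℝ) × ℝ, w' 0 = x ∧ w' N = γ • y ∧ JP D t r N w' ∧ UndV D χ K t N nc w w'} (by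
      rintro c ⟨w', hw0', hwN, hw', hund⟩
      refine ⟨w', hw0', hwN, hc3 t r N w' ht hr hrρ hw', ?_⟩
      have hcond : (nc : ℝ) + CP * (N * t + 1) / ρ1 ≤ ρ1 / (32 * ρ) := by
        refine le_trans ?_ hnc
        have : CP * (N * t + 1) / ρ1 ≤ (CP + 4 * n + 2 * CC) * (N * t + 1) / ρ1 := by
          refine div_le_div_of_nonneg_right (mul_le_mul_of_nonneg_right (by linarith) ?_) hρ0.le
          rw [← hTd]; linarith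
        linarith
      exact hPIV B C0 ρ ρ1 K t J p χ N nc D w w' hDP hρ hρ0 hρP' ht hK hcond hNet
        (fun j hj => ⟨(hw j hj).2.1.trans (hrρ.trans hρ8), (hw' j hj).2.1.trans (hrρ.trans hρ8)⟩) hund)
  refine ⟨hmain.1, ?_⟩
  rw [← hTd] at hmain
  have hΛ0 : 0 < Real.log (1 / ρ1) / (2 * CC) := by positivity
  have hTΛ : 0 < T / (Real.log (1 / ρ1) / (2 * CC)) := by positivity
  obtain ⟨S, hSd⟩ : ∃ S : ℕ, S = ⌈T / (Real.log (1 / ρ1) / (2 * CC))⌉₊ := ⟨_, rfl⟩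
  have hSup : (S : ℝ) < T / (Real.log (1 / ρ1) / (2 * CC)) + 1 := by
    rw [hSd]; exact Nat.ceil_lt_add_one hTΛ.le
  rw [← hSd] at hmain
  have hQ1 : 1 ≤ (CP + 4 * n + 2 * CC) * (T + 1) := by nlinarith
  have hq : (((⌊T⌋₊ + 1) * (4 * n) : ℕ) : ℝ) ≤ (CP + 4 * n + 2 * CC) * (T + 1) := by
    push_cast
    have h1 : (⌊T⌋₊ : ℝ) ≤ T := Nat.floor_le (by linarith)
    have h2 : (0 : ℝ) ≤ (⌊T⌋₊ : ℝ) := Nat.cast_nonneg _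
    nlinarith
  have hnQ : (n : ℝ) ≤ (CP + 4 * n + 2 * CC) * (T + 1) := by nlinarith
  have hexpo : T / (Real.log (1 / ρ1) / (2 * CC)) ≤ (CP + 4 * n + 2 * CC) * T / Real.log (1 / ρ1) := by
    have e : T / (Real.log (1 / ρ1) / (2 * CC)) = (2 * CC) * T / Real.log (1 / ρ1) := by
      field_simp
    rw [e]
    exact div_le_div_of_nonneg_right (mul_le_mul_of_nonneg_right (by linarith) (by linarith)) hlog0.le
  have e5 : (CP + 4 * n + 2 * CC) * N * t = (CP + 4 * n + 2 * CC) * T := by rw [hTd]; ring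
  rw [e5, ← hTd]
  calc _ ≤ ((((⌊T⌋₊ + 1) * (4 * n)) ^ S * n : ℕ) : ℝ) := Nat.cast_le.2 hmain.2
    _ = (((⌊T⌋₊ + 1) * (4 * n) : ℕ) : ℝ) ^ S * n := by push_cast; ring
    _ ≤ ((CP + 4 * n + 2 * CC) * (T + 1)) ^ S * ((CP + 4 * n + 2 * CC) * (T + 1)) :=
        mul_le_mul (pow_le_pow_left₀ (Nat.cast_nonneg _) hq S) hnQ hn0 (by positivity)
    _ = ((CP + 4 * n + 2 * CC) * (T + 1)) ^ (((S + 1 : ℕ) : ℝ)) := by rw [Real.rpow_natCast, pow_succ]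
    _ ≤ ((CP + 4 * n + 2 * CC) * (T + 1)) ^ ((CP + 4 * n + 2 * CC) * T / Real.log (1 / ρ1) + 3) := by
        refine Real.rpow_le_rpow_of_exponent_le hQ1 ?_
        push_cast
        linarith

end Pool.Agent.VQ
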